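import Pool.Agent.H743.JL.StmC

/-!
# Project JL (helper743), NS: the random part in the coordinates; NA: the fixed part is not degenerate
-/

set_option autoImplicit false
set_option linter.all false

open scoped Classical

namespace Pool.Agent.H71.JL

open Finset Module
open Pool.Agent.H743.JL
open Pool.Agent.N916.MO
open Pool.Agent.N916.GB (pt ps sx)

section
variable {V : Type} [Fintype V] [DecidableEq V]

theorem Bf_apply (r ν α : V → ZMod 2) (L : V → V → ZMod 2) (z w : (V → ZMod 2) × (V → ZMod 2)) :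
    Bf r ν α L z w = SL (fun i => (1 + r i) * ν i) α (fun i j => (1 + r i) * L i j) z w +
      dF r ν α z * dF r ν α w + rF r z * dF r ν α w + dF r ν α z * rF r w := rfl

theorem dF_apply (r ν α : V → ZMod 2) (z : (V → ZMod 2) × (V → ZMod 2)) :
    dF r ν α z = ∑ i, (1 + r i) * ν i * z.1 i + ∑ j, α j * z.2 j := rfl

theorem rF_apply (r : V → ZMod 2) (z : (V → ZMod 2) × (V → ZMod 2)) :
    rF r z = ∑ i, r i * z.1 i := rfl

theorem sum_single (f : V → ZMod 2) (i : V) :
    ∑ j, f j * (Pi.single i 1 : V → ZMod 2) j = f i := by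
  rw [sum_eq_single i]
  · rw [Pi.single_eq_same, mul_one]
  · intro j _ hj
    rw [Pi.single_eq_of_ne hj, mul_zero]
  · intro h
    exact absurd (mem_univ i) h

theorem Bf_x (r ν α : V → ZMod 2) (L : V → V → ZMod 2) (z : (V → ZMod 2) × (V → ZMod 2)) (i : V) :
    Bf r ν α L z (Pi.single i 1, 0) = (1 + r i) * ν i * z.1 i + ∑ j, (1 + r i) * L i j * z.2 j +
      (dF r ν α z + rF r z) * ((1 + r i) * ν i) + dF r ν α z * r i := by
  rw [Bf_apply, SL_x]
  have h1 : dF r ν α ((Pi.single i 1 : V → ZMod 2), (0 : V → ZMod 2)) = (1 + r i) * ν i := by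
    rw [dF_apply]
    have h2 : ∑ j, α j * ((Pi.single i 1 : V → ZMod 2), (0 : V → ZMod 2)).2 j = 0 :=
      sum_eq_zero fun j _ => mul_zero _
    rw [h2, add_zero]
    exact sum_single (fun i => (1 + r i) * ν i) i
  have h3 : rF r ((Pi.single i 1 : V → ZMod 2), (0 : V → ZMod 2)) = r i := by
    rw [rF_apply]
    exact sum_single r i
  rw [h1, h3]
  ring

theorem Bf_y (r ν α : V → ZMod 2) (L : V → V → ZMod 2) (z : (V → ZMod 2) × (V → ZMod 2)) (j : V) :
    Bf r ν α L z (0, Pi.single j 1) = ∑ i, (1 + r i) * L i j * z.1 i + α j * z.2 j +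
      (dF r ν α z + rF r z) * α j := by
  rw [Bf_apply, SL_y]
  have h1 : dF r ν α ((0 : V → ZMod 2), (Pi.single j 1 : V → ZMod 2)) = α j := by
    rw [dF_apply]
    have h2 : ∑ i, (1 + r i) * ν i * ((0 : V → ZMod 2), (Pi.single j 1 : V → ZMod 2)).1 i = 0 :=
      sum_eq_zero fun j _ => mul_zero _
    rw [h2, zero_add]
    exact sum_single α j
  have h3 : rF r ((0 : V → ZMod 2), (Pi.single j 1 : V → ZMod 2)) = 0 := by
    rw [rF_apply]
    exact sum_eq_zero fun j _ => mul_zero _
  rw [h1, h3]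
  ring

end

section
variable {U J : Type} [Fintype U] [DecidableEq U] [Fintype J] [LinearOrder J] {k0 : J}

theorem co_fst_inl (z : EE (E2 (Option U)) (Ix k0)) (u : U) :
    (co k0 z).1 (Sum.inl u) = z.1.1 (some u) := rfl

theorem co_fst_inr (z : EE (E2 (Option U)) (Ix k0)) (k : J) :
    (co k0 z).1 (Sum.inr k) = z.1.1 none + xt k0 z.2.1 k := rfl

theorem co_snd_inl (z : EE (E2 (Option U)) (Ix k0)) (u : U) :
    (co k0 z).2 (Sum.inl u) = z.1.2 (some u) := rfl

theorem co_snd_inr (z : EE (E2 (Option U)) (Ix k0)) (k : J) :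
    (co k0 z).2 (Sum.inr k) = z.1.2 none + xt k0 z.2.2 k := rfl

theorem co_inj (z : EE (E2 (Option U)) (Ix k0)) (hz : co k0 z = 0) : z = 0 := by
  have h1 : ∀ i, (co k0 z).1 i = 0 := fun i => by rw [hz]; rfl
  have h2 : ∀ i, (co k0 z).2 i = 0 := fun i => by rw [hz]; rfl
  have a1 : z.1.1 none = 0 := by
    have := h1 (Sum.inr k0)
    rw [co_fst_inr, xt_k0, add_zero] at this
    exact this
  have a2 : z.1.2 none = 0 := by
    have := h2 (Sum.inr k0)
    rw [co_snd_inr, xt_k0, add_zero] at this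
    exact this
  refine Prod.ext (Prod.ext (funext fun o => ?_) (funext fun o => ?_))
    (Prod.ext (funext fun l => ?_) (funext fun l => ?_))
  · rcases o with _ | u
    · exact a1
    · exact h1 (Sum.inl u)
  · rcases o with _ | u
    · exact a2
    · exact h2 (Sum.inl u)
  · have := h1 (Sum.inr l)
    rw [co_fst_inr, a1, zero_add, xt_sub] at this
    exact this
  · have := h2 (Sum.inr l)
    rw [co_snd_inr, a2, zero_add, xt_sub] at this
    exact this

theorem co_surj (w : (U ⊕ J → ZMod 2) × (U ⊕ J → ZMod 2)) :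
    ∃ z : EE (E2 (Option U)) (Ix k0), co k0 z = w := by
  have abb : ∀ a b : ZMod 2, b + (a + b) = a := by decide
  refine ⟨((fun o => o.elim (w.1 (Sum.inr k0)) (fun u => w.1 (Sum.inl u)),
    fun o => o.elim (w.2 (Sum.inr k0)) (fun u => w.2 (Sum.inl u))),
    (fun k => w.1 (Sum.inr k) + w.1 (Sum.inr k0)), fun k => w.2 (Sum.inr k) + w.2 (Sum.inr k0)),
    Prod.ext (funext fun i => ?_) (funext fun i => ?_)⟩
  · rcases i with u | k
    · rfl
    · rw [co_fst_inr]
      show w.1 (Sum.inr k0) + xt k0 (fun k : Ix k0 => w.1 (Sum.inr k) + w.1 (Sum.inr k0)) k = _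
      by_cases hk : k = k0
      · rw [hk, xt_k0, add_zero]
      · have : xt k0 (fun k : Ix k0 => w.1 (Sum.inr k) + w.1 (Sum.inr k0)) k =
          w.1 (Sum.inr k) + w.1 (Sum.inr k0) := dif_pos hk
        rw [this, abb]
  · rcases i with u | k
    · rfl
    · rw [co_snd_inr]
      show w.2 (Sum.inr k0) + xt k0 (fun k : Ix k0 => w.2 (Sum.inr k) + w.2 (Sum.inr k0)) k = _
      by_cases hk : k = k0
      · rw [hk, xt_k0, add_zero]
      · have : xt k0 (fun k : Ix k0 => w.2 (Sum.inr k) + w.2 (Sum.inr k0)) k =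
          w.2 (Sum.inr k) + w.2 (Sum.inr k0) := dif_pos hk
        rw [this, abb]

theorem bil {D : J → J → ZMod 2} (hs : ∀ k l, D k l = D l k) (hr : ∀ k, ∑ l, D k l = 0)
    (a b : ZMod 2) (x y : Ix k0 → ZMod 2) :
    ∑ k, ∑ l, D k l * ((a + xt k0 x k) * (b + xt k0 y l)) =
      ∑ k : Ix k0, ∑ l : Ix k0, D k l * (x k * y l) := by
  have h1 : ∀ k, ∑ l, D k l * ((a + xt k0 x k) * (b + xt k0 y l)) =
      (a + xt k0 x k) * ∑ l : Ix k0, D k l * y l := by
    intro k
    have : ∀ l, D k l * ((a + xt k0 x k) * (b + xt k0 y l)) =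
      (a + xt k0 x k) * b * D k l + (a + xt k0 x k) * (D k l * xt k0 y l) := fun l => by ring
    rw [sum_congr rfl fun l _ => this l, sum_add_distrib, ← mul_sum, ← mul_sum, hr, mul_zero,
      zero_add, sum_xt]
  rw [sum_congr rfl fun k _ => h1 k]
  have h2 : ∀ k, (a + xt k0 x k) * ∑ l : Ix k0, D k l * y l =
      a * ∑ l : Ix k0, D k l * y l + (∑ l : Ix k0, D k l * y l) * xt k0 x k := fun k => by ring
  have h3 : ∀ l : Ix k0, ∑ k, D k l * y l = 0 := fun l => by
    rw [← sum_mul, sum_congr rfl fun k _ => hs k l, hr, zero_mul]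
  have h4 : ∑ k, ∑ l : Ix k0, D k l * y l = 0 := by
    rw [sum_comm]
    exact sum_eq_zero fun l _ => h3 l
  rw [sum_congr rfl fun k _ => h2 k, sum_add_distrib, ← mul_sum, h4, mul_zero, zero_add,
    sum_xt (fun k => ∑ l : Ix k0, D k l * y l) x]
  refine sum_congr rfl fun k _ => ?_
  rw [sum_mul]
  exact sum_congr rfl fun l _ => by ring

theorem SL_pt (ν' α r : U ⊕ J → ZMod 2) (L : U ⊕ J → U ⊕ J → ZMod 2) (D : J → J → ZMod 2)
    (hr : ∀ k, r (Sum.inr k) = 0) (z w : (U ⊕ J → ZMod 2) × (U ⊕ J → ZMod 2)) :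
    SL ν' α (fun i j => (1 + r i) * pt L D i j) z w =
      SL ν' α (fun i j => (1 + r i) * L i j) z w +
      ∑ k, ∑ l, D k l * (w.1 (Sum.inr k) * z.2 (Sum.inr l) + z.1 (Sum.inr k) * w.2 (Sum.inr l)) := by
  rw [SL_apply, SL_apply]
  have h : ∑ i, ∑ j, (1 + r i) * pt L D i j * (w.1 i * z.2 j + z.1 i * w.2 j) =
      ∑ i, ∑ j, (1 + r i) * L i j * (w.1 i * z.2 j + z.1 i * w.2 j) +
      ∑ k, ∑ l, D k l * (w.1 (Sum.inr k) * z.2 (Sum.inr l) + z.1 (Sum.inr k) * w.2 (Sum.inr l)) := by
    rw [Fintype.sum_sum_type, Fintype.sum_sum_type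
      (fun i => ∑ j, (1 + r i) * L i j * (w.1 i * z.2 j + z.1 i * w.2 j)), add_assoc]
    refine congrArg₂ (· + ·) (sum_congr rfl fun u _ => sum_congr rfl fun j _ => ?_) ?_
    · rcases j with v | l <;> rfl
    · rw [← sum_add_distrib]
      refine sum_congr rfl fun k _ => ?_
      rw [Fintype.sum_sum_type, Fintype.sum_sum_type
        (fun j => (1 + r (Sum.inr k)) * L (Sum.inr k) j * (w.1 (Sum.inr k) * z.2 j +
          z.1 (Sum.inr k) * w.2 j)), add_assoc, ← sum_add_distrib]
      refine congrArg₂ (· + ·) (sum_congr rfl fun u _ => rfl) (sum_congr rfl fun l _ => ?_)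
      have h1 : pt L D (Sum.inr k) (Sum.inr l) = L (Sum.inr k) (Sum.inr l) + D k l := rfl
      rw [h1, hr]
      ring
  rw [h]
  ring

theorem Bp_eq (r ν α : U ⊕ J → ZMod 2) (L : U ⊕ J → U ⊕ J → ZMod 2) (σ : ps J → ZMod 2)
    (hr : ∀ k, r (Sum.inr k) = 0) (z w : EE (E2 (Option U)) (Ix k0)) :
    (Bp k0 r ν α L + sB (Sg k0 σ).1 : EE (E2 (Option U)) (Ix k0) →ₗ[ZMod 2]
      EE (E2 (Option U)) (Ix k0) →ₗ[ZMod 2] ZMod 2) z w =
      Bf r ν α (pt L (Lm (sx σ))) (co k0 z) (co k0 w) := by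
  show Bf r ν α L (co k0 z) (co k0 w) + sB (Sg k0 σ).1 z w = _
  have h1 := bil (k0 := k0) (Lsx_symm σ) (Lm_row (sx σ)) (w.1.1 none) (z.1.2 none) w.2.1 z.2.2
  have h2 := bil (k0 := k0) (Lsx_symm σ) (Lm_row (sx σ)) (z.1.1 none) (w.1.2 none) z.2.1 w.2.2
  have h3 : ∑ k, ∑ l, Lm (sx σ) k l * ((co k0 w).1 (Sum.inr k) * (co k0 z).2 (Sum.inr l) +
      (co k0 z).1 (Sum.inr k) * (co k0 w).2 (Sum.inr l)) = sB (Sg k0 σ).1 z w := by
    rw [sB_apply]
    simp only [mul_add, sum_add_distrib]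
    rw [add_comm]
    congr 1
  rw [Bf_apply, Bf_apply, SL_pt _ α r L (Lm (sx σ)) hr, h3]
  ring

end

theorem t_NS : S_NS := by
  intro U J _ _ _ _ k0 r ν α L σ hr
  unfold Nde
  constructor
  · intro h z hz
    obtain ⟨z1, rfl⟩ := co_surj (k0 := k0) z
    have := h z1 fun w => by
      rw [Bp_eq r ν α L σ hr]
      exact hz _
    rw [this, map_zero]
  · intro h z hz
    refine co_inj z (h _ fun z' => ?_)
    obtain ⟨w, rfl⟩ := co_surj (k0 := k0) z'
    rw [← Bp_eq r ν α L σ hr]
    exact hz w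

section
variable {U J : Type} [Fintype U] [DecidableEq U] [Fintype J] [LinearOrder J] {k0 : J}

theorem co_fx (k : Ix k0) : co k0 (fx k : EE (E2 (Option U)) (Ix k0)) =
    (Pi.single (Sum.inr (k : J)) 1, 0) := by
  refine Prod.ext (funext fun i => ?_) (funext fun i => ?_)
  · rcases i with u | l
    · show (0 : ZMod 2) = (Pi.single (Sum.inr (k : J)) 1 : U ⊕ J → ZMod 2) (Sum.inl u)
      rw [Pi.single_eq_of_ne (by simp)]
    · rw [co_fst_inr]
      show (0 : ZMod 2) + xt k0 (Pi.single k 1) l =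
        (Pi.single (Sum.inr (k : J)) 1 : U ⊕ J → ZMod 2) (Sum.inr l)
      rw [zero_add]
      by_cases hl : l = k0
      · have h1 : (Sum.inr l : U ⊕ J) ≠ Sum.inr (k : J) := fun h =>
          k.2 ((Sum.inr_injective h).symm.trans hl)
        rw [Pi.single_eq_of_ne h1, hl, xt_k0]
      · have h2 : xt k0 (Pi.single k 1 : Ix k0 → ZMod 2) l = (Pi.single k 1 : Ix k0 → ZMod 2) ⟨l, hl⟩ :=
          dif_pos hl
        rw [h2]
        by_cases hk : l = k
        · subst hk
          rw [Pi.single_eq_same, Pi.single_eq_same]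
        · rw [Pi.single_eq_of_ne (fun h => hk (congrArg Subtype.val h)),
            Pi.single_eq_of_ne (fun h => hk (Sum.inr_injective h))]
  · rcases i with u | l
    · rfl
    · rw [co_snd_inr]
      show (0 : ZMod 2) + xt k0 (0 : Ix k0 → ZMod 2) l = 0
      unfold xt
      split_ifs <;> simp

theorem co_fy (k : Ix k0) : co k0 (fy k : EE (E2 (Option U)) (Ix k0)) =
    (0, Pi.single (Sum.inr (k : J)) 1) := by
  refine Prod.ext (funext fun i => ?_) (funext fun i => ?_)
  · rcases i with u | l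
    · rfl
    · rw [co_fst_inr]
      show (0 : ZMod 2) + xt k0 (0 : Ix k0 → ZMod 2) l = 0
      unfold xt
      split_ifs <;> simp
  · rcases i with u | l
    · show (0 : ZMod 2) = (Pi.single (Sum.inr (k : J)) 1 : U ⊕ J → ZMod 2) (Sum.inl u)
      rw [Pi.single_eq_of_ne (by simp)]
    · rw [co_snd_inr]
      show (0 : ZMod 2) + xt k0 (Pi.single k 1) l =
        (Pi.single (Sum.inr (k : J)) 1 : U ⊕ J → ZMod 2) (Sum.inr l)
      rw [zero_add]
      by_cases hl : l = k0
      · have h1 : (Sum.inr l : U ⊕ J) ≠ Sum.inr (k : J) := fun h =>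
          k.2 ((Sum.inr_injective h).symm.trans hl)
        rw [Pi.single_eq_of_ne h1, hl, xt_k0]
      · have h2 : xt k0 (Pi.single k 1 : Ix k0 → ZMod 2) l = (Pi.single k 1 : Ix k0 → ZMod 2) ⟨l, hl⟩ :=
          dif_pos hl
        rw [h2]
        by_cases hk : l = k
        · subst hk
          rw [Pi.single_eq_same, Pi.single_eq_same]
        · rw [Pi.single_eq_of_ne (fun h => hk (congrArg Subtype.val h)),
            Pi.single_eq_of_ne (fun h => hk (Sum.inr_injective h))]

theorem co_e1 (u : U) : co k0 (((Pi.single (some u) 1, 0), 0, 0) : EE (E2 (Option U)) (Ix k0)) =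
    (Pi.single (Sum.inl u) 1, 0) := by
  have h0 : ∀ l : J, xt k0 (0 : Ix k0 → ZMod 2) l = 0 := by
    intro l
    unfold xt
    split_ifs <;> simp
  refine Prod.ext (funext fun i => ?_) (funext fun i => ?_)
  · rcases i with v | l
    · show (Pi.single (some u) 1 : Option U → ZMod 2) (some v) =
        (Pi.single (Sum.inl u) 1 : U ⊕ J → ZMod 2) (Sum.inl v)
      by_cases hv : v = u
      · subst hv
        rw [Pi.single_eq_same, Pi.single_eq_same]
      · rw [Pi.single_eq_of_ne (fun h => hv (Option.some_injective _ h)),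
          Pi.single_eq_of_ne (fun h => hv (Sum.inl_injective h))]
    · show (Pi.single (some u) 1 : Option U → ZMod 2) none + xt k0 (0 : Ix k0 → ZMod 2) l =
        (Pi.single (Sum.inl u) 1 : U ⊕ J → ZMod 2) (Sum.inr l)
      rw [Pi.single_eq_of_ne (by simp), Pi.single_eq_of_ne (by simp), h0, add_zero]
  · rcases i with v | l
    · rfl
    · show (0 : ZMod 2) + xt k0 (0 : Ix k0 → ZMod 2) l = _
      rw [h0, add_zero]
      rfl

end

/-- the two families of equations -/
theorem eqs {U J : Type} [Fintype U] [DecidableEq U] [Fintype J] [LinearOrder J] {k0 : J}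
    {r w ν α : U ⊕ J → ZMod 2} {L : U ⊕ J → U ⊕ J → ZMod 2} {a : ZMod 2} (hD : Dat r w ν α L a)
    (hJ : ∀ k, w (Sum.inr k) = 1 ∧ r (Sum.inr k) = 0) (x y : U ⊕ J → ZMod 2) (x0 y0 : ZMod 2)
    (hx : ∀ k, x (Sum.inr k) = x0) (hy : ∀ k, y (Sum.inr k) = y0) (k : J) :
    Bf r ν α L (x, y) (Pi.single (Sum.inr k) 1, 0) =
      ν (Sum.inr k) * (x0 + dF r ν α (x, y) + rF r (x, y)) +
      ∑ u, (w (Sum.inl u) * L (Sum.inl u) (Sum.inr k) + α (Sum.inl u) * α (Sum.inr k)) *
        (y (Sum.inl u) + y0) ∧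
    Bf r ν α L (x, y) (0, Pi.single (Sum.inr k) 1) =
      ∑ u, ((1 + r (Sum.inl u)) * x (Sum.inl u) + x0 * w (Sum.inl u)) *
        L (Sum.inl u) (Sum.inr k) +
      α (Sum.inr k) * ((a + 1) * x0 + y0 + dF r ν α (x, y) + rF r (x, y)) := by
  have two : ∀ b : ZMod 2, b + b = 0 := by decide
  have swap : ∀ b c e : ZMod 2, b + c = e → b = c + e := by decide
  have hcol : ∀ u, L (Sum.inr k) (Sum.inl u) =
      w (Sum.inl u) * L (Sum.inl u) (Sum.inr k) + α (Sum.inl u) * α (Sum.inr k) := by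
    intro u
    have h := hD.rc (Sum.inr k) (Sum.inl u) (by simp)
    rw [(hJ k).1, one_mul] at h
    rw [swap _ _ _ h]
    ring
  have hrow : ∑ l, L (Sum.inr k) (Sum.inr l) = ∑ u, L (Sum.inr k) (Sum.inl u) := by
    have h := hD.row (Sum.inr k)
    rw [Fintype.sum_sum_type, add_comm] at h
    have := swap _ _ _ h
    rw [add_zero] at this
    exact this
  have hall : ∑ p, w p * L p (Sum.inr k) = α (Sum.inr k) * (a + 1) := by
    have h1 : ∀ p, w p * L p (Sum.inr k) = L (Sum.inr k) p +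
        (α p * α (Sum.inr k) + if p = Sum.inr k then α (Sum.inr k) else 0) := by
      intro p
      by_cases hp : p = Sum.inr k
      · rw [if_pos hp, hp, (hJ k).1, one_mul]
        have : ∀ b : ZMod 2, b * b + b = 0 := by decide
        rw [this, add_zero]
      · rw [if_neg hp, add_zero]
        have h := hD.rc p (Sum.inr k) hp
        rw [(hJ k).1, one_mul] at h
        exact swap _ _ _ h
    rw [sum_congr rfl fun p _ => h1 p, sum_add_distrib, hD.row, zero_add, sum_add_distrib,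
      ← sum_mul, hD.sa, sum_ite_eq' univ, if_pos (mem_univ _)]
    ring
  have hcolJ : ∑ l, L (Sum.inr l) (Sum.inr k) = α (Sum.inr k) * (a + 1) +
      ∑ u, w (Sum.inl u) * L (Sum.inl u) (Sum.inr k) := by
    rw [Fintype.sum_sum_type, add_comm] at hall
    have h1 : ∑ l, w (Sum.inr l) * L (Sum.inr l) (Sum.inr k) = ∑ l, L (Sum.inr l) (Sum.inr k) :=
      sum_congr rfl fun l _ => by rw [(hJ l).1, one_mul]
    rw [h1] at hall
    rw [swap _ _ _ hall]
    ring
  constructor
  · rw [Bf_x, (hJ k).2, Fintype.sum_sum_type]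
    have e1 : ∑ u, (1 + 0) * L (Sum.inr k) (Sum.inl u) * (x, y).2 (Sum.inl u) =
        ∑ u, L (Sum.inr k) (Sum.inl u) * y (Sum.inl u) :=
      sum_congr rfl fun u _ => by rw [add_zero, one_mul]
    have e2 : ∑ l, (1 + 0) * L (Sum.inr k) (Sum.inr l) * (x, y).2 (Sum.inr l) =
        (∑ u, L (Sum.inr k) (Sum.inl u)) * y0 := by
      rw [← hrow, sum_mul]
      refine sum_congr rfl fun l _ => ?_
      show (1 + 0) * L (Sum.inr k) (Sum.inr l) * y (Sum.inr l) = _
      rw [add_zero, one_mul, hy]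
    rw [e1, e2]
    have e3 : ∑ u, (w (Sum.inl u) * L (Sum.inl u) (Sum.inr k) + α (Sum.inl u) * α (Sum.inr k)) *
        (y (Sum.inl u) + y0) = ∑ u, L (Sum.inr k) (Sum.inl u) * y (Sum.inl u) +
          (∑ u, L (Sum.inr k) (Sum.inl u)) * y0 := by
      rw [sum_mul, ← sum_add_distrib]
      refine sum_congr rfl fun u _ => ?_
      rw [← hcol]
      ring
    rw [e3]
    show (1 + 0) * ν (Sum.inr k) * x (Sum.inr k) + _ + _ + _ = _
    rw [hx]
    ring
  · rw [Bf_y, Fintype.sum_sum_type]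
    have e1 : ∑ l, (1 + r (Sum.inr l)) * L (Sum.inr l) (Sum.inr k) * (x, y).1 (Sum.inr l) =
        (∑ l, L (Sum.inr l) (Sum.inr k)) * x0 := by
      rw [sum_mul]
      refine sum_congr rfl fun l _ => ?_
      show (1 + r (Sum.inr l)) * L (Sum.inr l) (Sum.inr k) * x (Sum.inr l) = _
      rw [(hJ l).2, add_zero, one_mul, hx]
    rw [e1, hcolJ]
    have e3 : ∑ u, ((1 + r (Sum.inl u)) * x (Sum.inl u) + x0 * w (Sum.inl u)) *
        L (Sum.inl u) (Sum.inr k) =
        ∑ u, (1 + r (Sum.inl u)) * L (Sum.inl u) (Sum.inr k) * x (Sum.inl u) +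
        (∑ u, w (Sum.inl u) * L (Sum.inl u) (Sum.inr k)) * x0 := by
      rw [sum_mul, ← sum_add_distrib]
      exact sum_congr rfl fun u _ => by ring
    rw [e3]
    show _ + α (Sum.inr k) * y (Sum.inr k) + _ = _
    rw [hy]
    show ∑ u, (1 + r (Sum.inl u)) * L (Sum.inl u) (Sum.inr k) * x (Sum.inl u) + _ + _ + _ = _
    ring

theorem t_NA : S_NA := by
  intro U J _ _ _ _ k0 r w ν α L a hD hJ hU h0 h1 e he1 he2
  obtain ⟨x, hx⟩ : ∃ x : U ⊕ J → ZMod 2, x = (co k0 (e, 0, 0)).1 := ⟨_, rfl⟩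
  obtain ⟨y, hy⟩ : ∃ y : U ⊕ J → ZMod 2, y = (co k0 (e, 0, 0)).2 := ⟨_, rfl⟩
  obtain ⟨x0, hx0⟩ : ∃ x0, x0 = e.1 none := ⟨_, rfl⟩
  obtain ⟨y0, hy0⟩ : ∃ y0, y0 = e.2 none := ⟨_, rfl⟩
  have hz : co k0 (e, 0, 0) = (x, y) := by rw [hx, hy]
  have z0 : ∀ l : J, xt k0 (0 : Ix k0 → ZMod 2) l = 0 := by
    intro l
    unfold xt
    split_ifs <;> simp
  have hxJ : ∀ k, x (Sum.inr k) = x0 := by
    intro k
    rw [hx, hx0, co_fst_inr]
    show e.1 none + xt k0 (0 : Ix k0 → ZMod 2) k = _
    rw [z0, add_zero]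
  have hyJ : ∀ k, y (Sum.inr k) = y0 := by
    intro k
    rw [hy, hy0, co_snd_inr]
    show e.2 none + xt k0 (0 : Ix k0 → ZMod 2) k = _
    rw [z0, add_zero]
  obtain ⟨d, hd⟩ : ∃ d, d = dF r ν α (x, y) := ⟨_, rfl⟩
  obtain ⟨ρ, hρ⟩ : ∃ ρ, ρ = rF r (x, y) := ⟨_, rfl⟩
  -- the equations
  have q1 : ∀ k : Ix k0, ν (Sum.inr k) * (x0 + d + ρ) +
      ∑ u, (w (Sum.inl u) * L (Sum.inl u) (Sum.inr k) + α (Sum.inl u) * α (Sum.inr k)) *
        (y (Sum.inl u) + y0) = 0 := by
    intro k
    have h := (he2 k).1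
    have h2 := (eqs (k0 := k0) hD hJ x y x0 y0 hxJ hyJ k).1
    rw [← hd, ← hρ] at h2
    rw [← h2]
    rw [← h]
    show _ = Bf r ν α L (co k0 (e, 0, 0)) (co k0 (fx k))
    rw [co_fx, hz]
  have q2 : ∀ k : Ix k0, ∑ u, ((1 + r (Sum.inl u)) * x (Sum.inl u) + x0 * w (Sum.inl u)) *
        L (Sum.inl u) (Sum.inr k) +
      α (Sum.inr k) * ((a + 1) * x0 + y0 + d + ρ) = 0 := by
    intro k
    have h := (he2 k).2
    have h2 := (eqs (k0 := k0) hD hJ x y x0 y0 hxJ hyJ k).2
    rw [← hd, ← hρ] at h2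
    rw [← h2]
    rw [← h]
    show _ = Bf r ν α L (co k0 (e, 0, 0)) (co k0 (fy k))
    rw [co_fy, hz]
  have q1' : ∀ k : Ix k0, ∑ u, (w (Sum.inl u) * (y (Sum.inl u) + y0)) * L (Sum.inl u) (Sum.inr k) +
      (∑ u, α (Sum.inl u) * (y (Sum.inl u) + y0)) * α (Sum.inr k) +
      (x0 + d + ρ) * ν (Sum.inr k) = 0 := by
    intro k
    rw [← q1 k, sum_mul, ← sum_add_distrib]
    rw [add_comm]
    congr 1
    · ring
    · exact sum_congr rfl fun u _ => by ring
  have hdx := dF_apply r ν α (x, y)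
  rw [← hd] at hdx
  have hρx := rF_apply r (x, y)
  rw [← hρ] at hρx
  -- conclusion from the vanishing
  have fin : (∀ u, x (Sum.inl u) = 0) → (∀ u, y (Sum.inl u) = 0) → x0 = 0 → y0 = 0 → e = 0 := by
    intro a1 a2 a3 a4
    refine Prod.ext (funext fun o => ?_) (funext fun o => ?_)
    · rcases o with _ | u
      · exact hx0.symm.trans a3
      · have := a1 u
        rw [hx] at this
        exact this
    · rcases o with _ | u
      · exact hy0.symm.trans a4
      · have := a2 u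
        rw [hy] at this
        exact this
  have two : ∀ b : ZMod 2, b + b = 0 := by decide
  have eqz : ∀ b c : ZMod 2, b + c = 0 → b = c := by decide
  have w01 : ∀ b : ZMod 2, b = 0 ∨ b = 1 := by decide
  -- `y_u = y0` from the weights
  have key : (∀ u, α (Sum.inl u) ≠ 0 → w (Sum.inl u) * (y (Sum.inl u) + y0) = 0) →
      ∑ u, α (Sum.inl u) * (y (Sum.inl u) + y0) = 0 →
      ∀ u, w (Sum.inl u) = 0 → y (Sum.inl u) + y0 = 0 := by
    intro a1 a2 u hu
    have a3 : ∑ v, α (Sum.inl v) * (y (Sum.inl v) + y0) = α (Sum.inl u) * (y (Sum.inl u) + y0) := by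
      refine sum_eq_single u (fun v _ hv => ?_) (fun h => absurd (mem_univ u) h)
      by_cases hαv : α (Sum.inl v) = 0
      · rw [hαv, zero_mul]
      · rcases w01 (w (Sum.inl v)) with hw | hw
        · exact absurd ((hU v hw).2 u hu) hv
        · have := a1 v hαv
          rw [hw, one_mul] at this
          rw [this, mul_zero]
    rw [a3, (hU u hu).1, one_mul] at a2
    exact a2
  by_cases hr : ∀ i, r i = 0
  · -- all `r` are zero
    have hρ0 : ρ = 0 := by
      rw [hρx]
      exact sum_eq_zero fun i _ => by rw [hr, zero_mul]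
    obtain ⟨b1, b2, b3⟩ := h0 hr (fun u => w (Sum.inl u) * (y (Sum.inl u) + y0))
      (∑ u, α (Sum.inl u) * (y (Sum.inl u) + y0)) (x0 + d + ρ) q1'
    obtain ⟨c1, c2, _⟩ := h0 hr (fun u => (1 + r (Sum.inl u)) * x (Sum.inl u) + x0 * w (Sum.inl u))
      ((a + 1) * x0 + y0 + d + ρ) 0 (fun k => by
        rw [zero_mul, add_zero, mul_comm _ (α (Sum.inr k))]
        exact q2 k)
    rw [hρ0, add_zero] at b3 c2
    have hxd : x0 = d := eqz _ _ b3
    have hyu : ∀ u, y (Sum.inl u) = y0 := by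
      intro u
      refine eqz _ _ ?_
      rcases w01 (w (Sum.inl u)) with hw | hw
      · exact key (fun v _ => b1 v) b2 u hw
      · have := b1 u
        simp only [hw, one_mul] at this
        exact this
    have hxu : ∀ u, x (Sum.inl u) = x0 * w (Sum.inl u) := by
      intro u
      have := c1 u
      simp only [hr, add_zero, one_mul] at this
      exact eqz _ _ this
    have hxi : ∀ i, x i = x0 * w i := by
      rintro (u | k)
      · exact hxu u
      · rw [hxJ, (hJ k).1, mul_one]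
    have hyi : ∀ i, y i = y0 := by
      rintro (u | k)
      · exact hyu u
      · exact hyJ k
    have hy0a : y0 = a * x0 := by
      rw [← hxd] at c2
      have : ∀ a x y : ZMod 2, (a + 1) * x + y + x = 0 → y = a * x := by decide
      exact this _ _ _ c2
    have hd0 : d = 0 := by
      rw [hdx]
      have e1 : ∑ i, (1 + r i) * ν i * (x, y).1 i = x0 * ∑ i, ν i := by
        rw [mul_sum]
        refine sum_congr rfl fun i _ => ?_
        show (1 + r i) * ν i * x i = _
        rw [hr, hxi, add_zero, one_mul]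
        have := hD.nw i
        calc ν i * (x0 * w i) = x0 * (ν i * w i) := by ring
          _ = _ := by rw [this]
      have e2 : ∑ j, α j * (x, y).2 j = y0 * a := by
        rw [← hD.sa, mul_sum]
        refine sum_congr rfl fun i _ => ?_
        show α i * y i = _
        rw [hyi, mul_comm]
      rw [e1, e2, hD.r0 hr, hy0a]
      have : ∀ a x : ZMod 2, x * a + a * x * a = 0 := by decide
      exact this _ _
    have hx00 : x0 = 0 := hxd.trans hd0
    have hy00 : y0 = 0 := by rw [hy0a, hx00, mul_zero]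
    exact fin (fun u => by rw [hxu, hx00, zero_mul]) (fun u => by rw [hyu, hy00]) hx00 hy00
  · -- there is a `v0`
    push Not at hr
    obtain ⟨i, hi⟩ := hr
    obtain ⟨v0, rfl⟩ : ∃ v0, i = Sum.inl v0 := by
      rcases i with v | k
      · exact ⟨v, rfl⟩
      · exact absurd (hJ k).2 hi
    have hr1 : r (Sum.inl v0) = 1 := (w01 _).resolve_left hi
    obtain ⟨ha, hα0, hw0, hoth⟩ := hD.r1 _ hr1
    obtain ⟨hν, hind⟩ := h1 v0 hr1
    obtain ⟨b1, b2⟩ := hind (fun u => w (Sum.inl u) * (y (Sum.inl u) + y0) +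
        if u = v0 then x0 + d + ρ else 0) (∑ u, α (Sum.inl u) * (y (Sum.inl u) + y0)) (fun k => by
      have hq := q1' k
      rw [hν] at hq
      refine Eq.trans ?_ hq
      have e1 : ∑ v, (w (Sum.inl v) * (y (Sum.inl v) + y0) + if v = v0 then x0 + d + ρ else 0) *
          L (Sum.inl v) (Sum.inr k) =
          ∑ v, w (Sum.inl v) * (y (Sum.inl v) + y0) * L (Sum.inl v) (Sum.inr k) +
          (x0 + d + ρ) * L (Sum.inl v0) (Sum.inr k) := by
        simp only [add_mul, sum_add_distrib, ite_mul, zero_mul]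
        congr 1
        rw [sum_ite_eq' univ v0, if_pos (mem_univ _)]
      rw [e1]
      ring)
    obtain ⟨c1, c2⟩ := hind (fun u => (1 + r (Sum.inl u)) * x (Sum.inl u) + x0 * w (Sum.inl u))
      ((a + 1) * x0 + y0 + d + ρ) (fun k => by
        rw [mul_comm _ (α (Sum.inr k))]
        exact q2 k)
    have hx00 : x0 = 0 := by
      have := c1 v0
      simp only [hr1, two, zero_mul, zero_add, hw0, mul_one] at this
      exact this
    have hru : ∀ u, u ≠ v0 → r (Sum.inl u) = 0 := fun u hu =>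
      (hoth (Sum.inl u) (fun h => hu (Sum.inl_injective h))).2
    have hxu : ∀ u, u ≠ v0 → x (Sum.inl u) = 0 := by
      intro u hu
      have := c1 u
      simp only [hru u hu, add_zero, one_mul, hx00, zero_mul] at this
      exact this
    rw [ha, two, zero_mul, zero_add] at c2
    have hyu : ∀ u, u ≠ v0 → y (Sum.inl u) = y0 := by
      intro u hu
      refine eqz _ _ ?_
      rcases w01 (w (Sum.inl u)) with hw | hw
      · refine key (fun v hv => ?_) b2 u hw
        have hv0 : v ≠ v0 := by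
          rintro rfl
          exact hv hα0
        have := b1 v
        simp only [if_neg hv0, add_zero] at this
        exact this
      · have := b1 u
        simp only [hw, one_mul, if_neg hu, add_zero] at this
        exact this
    have hyv0 : y (Sum.inl v0) = 0 := by
      have := b1 v0
      simp only [hw0, one_mul, if_pos, hx00, zero_add] at this
      have h3 : ∀ y y0 d ρ : ZMod 2, y + y0 + (d + ρ) = 0 → y0 + d + ρ = 0 → y = 0 := by decide
      exact h3 _ _ _ _ this c2
    -- `d = y0`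
    have hdy : d = y0 := by
      rw [hdx]
      have e1 : ∑ i, (1 + r i) * ν i * (x, y).1 i = 0 := by
        refine sum_eq_zero fun i _ => ?_
        show (1 + r i) * ν i * x i = 0
        rcases i with u | k
        · by_cases hu : u = v0
          · rw [hu, hr1, two, zero_mul, zero_mul]
          · rw [hxu u hu, mul_zero]
        · rw [hxJ, hx00, mul_zero]
      have e2 : ∑ j, α j * (x, y).2 j = y0 * a := by
        rw [← hD.sa, mul_sum]
        refine sum_congr rfl fun i _ => ?_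
        show α i * y i = _
        rcases i with u | k
        · by_cases hu : u = v0
          · rw [hu, hα0, zero_mul, mul_zero]
          · rw [hyu u hu, mul_comm]
        · rw [hyJ, mul_comm]
      rw [e1, e2, ha, mul_one, zero_add]
    have hρv : ρ = x (Sum.inl v0) := by
      rw [hρx, sum_eq_single (Sum.inl v0)]
      · show r (Sum.inl v0) * x (Sum.inl v0) = _
        rw [hr1, one_mul]
      · intro i _ hi
        show r i * x i = 0
        rw [(hoth i hi).2, zero_mul]
      · intro h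
        exact absurd (mem_univ _) h
    have hxv0 : x (Sum.inl v0) = 0 := by
      rw [hdy, hρv, two, zero_add] at c2
      exact c2
    have hy00 : y0 = 0 := by
      have h := he1 (Pi.single (some v0) 1, 0)
      have h2 : Bf r ν α L (co k0 (e, 0, 0)) (co k0 ((Pi.single (some v0) 1, 0), 0, 0)) = 0 := h
      rw [co_e1, hz, Bf_x, hr1, two, ← hd, ← hρ, hdy] at h2
      simp only [zero_mul, sum_const_zero, mul_zero, add_zero, mul_one, zero_add] at h2
      exact h2
    refine fin (fun u => ?_) (fun u => ?_) hx00 hy00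
    · by_cases hu : u = v0
      · rw [hu]; exact hxv0
      · exact hxu u hu
    · by_cases hu : u = v0
      · rw [hu]; exact hyv0
      · rw [hyu u hu]; exact hy00

end Pool.Agent.H71.JL
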